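import Mathlib

namespace Pool.Agent.Results.MP_981724_an.NoPlane

open Set Filter Topology BoundedContinuousFunction

/-- the numerical range `V(T)` -/
def numRange {X : Type} [NormedAddCommGroup X] [NormedSpace ℝ X] (T : X →L[ℝ] X) : Set ℝ :=
  {r | ∃ (x : X) (f : X →L[ℝ] ℝ), ‖x‖ = 1 ∧ ‖f‖ = 1 ∧ f x = 1 ∧ r = f (T x)}

abbrev E : Type := (ℕ × ℝ) →ᵇ ℝ

def Dec (F : ℕ × ℝ → ℝ) : Prop := ∀ ε > 0, ∃ N : ℕ, ∀ n t, (N ≤ n ∨ (N : ℝ) ≤ |t|) → |F (n, t)| ≤ ε

def Der (F : ℕ × ℝ → ℝ) : Prop := ∀ n t, HasDerivAt (fun s => F (n, s)) (2 * F (n + 1, t)) t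

def X : Submodule ℝ E where
  carrier := {F | Der F ∧ Dec F}
  zero_mem' := ⟨fun n t => by simpa using hasDerivAt_const t (0 : ℝ),
    fun ε hε => ⟨0, fun n t _ => by simpa using hε.le⟩⟩
  add_mem' := by
    rintro F G ⟨h1, h2⟩ ⟨h3, h4⟩
    refine ⟨fun n t => ?_, fun ε hε => ?_⟩
    · simpa [mul_add] using (h1 n t).fun_add (h3 n t)
    · obtain ⟨N, hN⟩ := h2 (ε / 2) (by linarith)
      obtain ⟨M, hM⟩ := h4 (ε / 2) (by linarith)
      refine ⟨N + M, fun n t h => ?_⟩
      push_cast at h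
      have a := hN n t (h.imp (by omega) (fun h => by linarith [(Nat.cast_nonneg M : (0 : ℝ) ≤ M)]))
      have b := hM n t (h.imp (by omega) (fun h => by linarith [(Nat.cast_nonneg N : (0 : ℝ) ≤ N)]))
      simp only [BoundedContinuousFunction.coe_add, Pi.add_apply]
      linarith [abs_add_le (F (n, t)) (G (n, t))]
  smul_mem' := by
    rintro c F ⟨h1, h2⟩
    refine ⟨fun n t => ?_, fun ε hε => ?_⟩
    · have := (h1 n t).const_mul c
      simp only [BoundedContinuousFunction.coe_smul, smul_eq_mul]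
      exact this.congr_deriv (by ring)
    · obtain ⟨N, hN⟩ := h2 (ε / (|c| + 1)) (by positivity)
      refine ⟨N, fun n t h => ?_⟩
      have := hN n t h
      rw [le_div_iff₀ (by positivity)] at this
      simp only [BoundedContinuousFunction.coe_smul, smul_eq_mul, abs_mul]
      nlinarith [abs_nonneg (F (n, t))]

theorem X_closed : IsClosed (X : Set E) := by
  refine IsSeqClosed.isClosed fun G F hG hF => ⟨fun n t => ?_, fun ε hε => ?_⟩
  · have hu := (BoundedContinuousFunction.tendsto_iff_tendstoUniformly).1 hF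
    refine hasDerivAt_of_tendstoUniformly (f := fun k s => G k (n, s))
      (f' := fun k s => 2 * G k (n + 1, s)) (g' := fun s => 2 * F (n + 1, s)) (l := atTop) ?_
      (Eventually.of_forall fun k s => (hG k).1 n s) (fun s => hu.tendsto_at (n, s)) t
    rw [Metric.tendstoUniformly_iff] at hu ⊢
    intro ε hε
    filter_upwards [hu (ε / 2) (by linarith)] with k hk s
    have := hk (n + 1, s)
    rw [Real.dist_eq] at this ⊢
    rw [← mul_sub, abs_mul]
    norm_num
    linarith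
  · obtain ⟨k, hk⟩ := (Metric.tendsto_atTop.1 hF) (ε / 2) (by linarith)
    obtain ⟨N, hN⟩ := (hG k).2 (ε / 2) (by linarith)
    refine ⟨N, fun n t h => ?_⟩
    have a := hN n t h
    have b := (BoundedContinuousFunction.dist_coe_le_dist (n, t)).trans (hk k le_rfl).le
    rw [Real.dist_eq] at b
    have := abs_sub_abs_le_abs_sub (F (n, t)) (G k (n, t))
    rw [abs_sub_comm] at this
    linarith

instance : CompleteSpace X := X_closed.completeSpace_coe

def sh : C(ℕ × ℝ, ℕ × ℝ) := ⟨fun p => (p.1 + 1, p.2), by fun_prop⟩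

noncomputable def T0 : X →ₗ[ℝ] X where
  toFun F := ⟨(2 : ℝ) • F.1.compContinuous sh, by
    refine X.smul_mem _ ⟨fun n t => F.2.1 (n + 1) t, fun ε hε => ?_⟩
    obtain ⟨N, hN⟩ := F.2.2 ε hε
    exact ⟨N, fun n t h => hN (n + 1) t (h.imp (by omega) id)⟩⟩
  map_add' F G := by ext p; simp [mul_add]
  map_smul' c F := by ext p; simp; ring

theorem abs_le_norm (F : X) (p : ℕ × ℝ) : |F.1 p| ≤ ‖F‖ := F.1.norm_coe_le_norm p

theorem norm_le' (F : X) {C : ℝ} (hC : 0 ≤ C) (h : ∀ n t, |F.1 (n, t)| ≤ C) : ‖F‖ ≤ C :=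
  (BoundedContinuousFunction.norm_le hC).2 fun p => h p.1 p.2

theorem T0_le (F : X) : ‖T0 F‖ ≤ 2 * ‖F‖ := by
  refine norm_le' _ (by positivity) fun n t => ?_
  show |2 * F.1 (n + 1, t)| ≤ _
  rw [abs_mul]
  have := abs_le_norm F (n + 1, t)
  rw [abs_two]
  linarith

noncomputable def T : X →L[ℝ] X := LinearMap.mkContinuous (E := X) (F := X) T0 2 T0_le

theorem T_apply (F : X) (n : ℕ) (t : ℝ) : (T F).1 (n, t) = 2 * F.1 (n + 1, t) := rfl

theorem mvt {f f' : ℝ → ℝ} (hf : ∀ t, HasDerivAt f (f' t) t) (a b C : ℝ)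
    (hC : ∀ t ∈ uIcc a b, |f' t| ≤ C) : |f b - f a| ≤ C * |b - a| :=
  (convex_uIcc a b).norm_image_sub_le_of_norm_hasDerivWithin_le
    (fun t _ => (hf t).hasDerivWithinAt) hC left_mem_uIcc right_mem_uIcc

theorem near (F : X) (t : ℝ) : ‖F + t • T F‖ ≤ ‖F‖ + 4 * ‖F‖ * t ^ 2 := by
  refine norm_le' _ (by positivity) fun n s => ?_
  show |F.1 (n, s) + t * (2 * F.1 (n + 1, s))| ≤ _
  have h1 := mvt (f := fun u => F.1 (n, u) - u * (2 * F.1 (n + 1, s)))
    (f' := fun u => 2 * F.1 (n + 1, u) - 2 * F.1 (n + 1, s))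
    (fun u => by simpa using (F.2.1 n u).fun_sub ((hasDerivAt_id u).mul_const (2 * F.1 (n + 1, s))))
    s (s + t) (4 * ‖F‖ * |t|) (fun u hu => by
      have h2 := mvt (F.2.1 (n + 1)) s u (2 * ‖F‖) (fun v _ => by
        rw [abs_mul]; have := abs_le_norm F (n + 1 + 1, v); norm_num; exact this)
      have h3 : |u - s| ≤ |t| := by simpa using abs_sub_left_of_mem_uIcc hu
      rw [← mul_sub, abs_mul, abs_two]
      nlinarith [norm_nonneg F])
  have h4 := abs_le_norm F (n, s + t)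
  rw [add_sub_cancel_left, mul_assoc, abs_mul_abs_self] at h1
  rw [abs_le] at *
  constructor <;> nlinarith [h1.1, h1.2, h4.1, h4.2]

theorem range_T {X : Type} [NormedAddCommGroup X] [NormedSpace ℝ X] [Nontrivial X] (T : X →L[ℝ] X)
    (near : ∀ (F : X) (t : ℝ), ‖F + t • T F‖ ≤ ‖F‖ + 4 * ‖F‖ * t ^ 2) : numRange T = {0} := by
  have key : ∀ (x : X) (f : X →L[ℝ] ℝ), ‖x‖ = 1 → ‖f‖ = 1 → f x = 1 → f (T x) = 0 := by
    intro x f h1 h2 h3
    have := f.le_opNorm (x + (f (T x) / 8) • T x)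
    have h4 := near x (f (T x) / 8)
    rw [h2, map_add, map_smul, h3, one_mul, Real.norm_eq_abs, smul_eq_mul] at this
    rw [h1] at h4
    have h5 := (le_abs_self _).trans (this.trans h4)
    nlinarith [sq_nonneg (f (T x))]
  ext r
  constructor
  · rintro ⟨x, f, h1, h2, h3, rfl⟩
    exact key x f h1 h2 h3
  · rintro rfl
    obtain ⟨x, hx⟩ := exists_norm_eq X zero_le_one
    obtain ⟨f, h1, h2⟩ := exists_dual_vector ℝ x (by rw [hx]; norm_num)
    exact ⟨x, f, hx, h1, by simpa [hx] using h2, (key x f hx h1 (by simpa [hx] using h2)).symm⟩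

theorem taylor (F : X) (n : ℕ) (t : ℝ) (N : ℕ) :
    |F.1 (n, t) - ∑ k ∈ Finset.range (N + 1), F.1 (n + k, 0) * (2 * t) ^ k / k.factorial| ≤
      2 * ‖F‖ * (|2 * t| ^ N / N.factorial) * |t| := by
  have hd : ∀ s, HasDerivAt
      (fun s => ∑ k ∈ Finset.range (N + 1), F.1 (n + k, s) * (2 * (t - s)) ^ k / k.factorial)
      (2 * F.1 (n + N + 1, s) * (2 * (t - s)) ^ N / N.factorial) s := by
    intro s
    induction N with
    | zero => simpa using F.2.1 n s
    | succ N ih =>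
      simp only [Finset.sum_range_succ _ (N + 1)]
      have h1 : HasDerivAt (fun s => 2 * (t - s)) (-2) s := by
        simpa using ((hasDerivAt_id s).const_sub t).const_mul 2
      have h2 := ((F.2.1 (n + (N + 1)) s).fun_mul (h1.fun_pow (N + 1))).div_const ((N + 1).factorial : ℝ)
      refine (ih.fun_add h2).congr_deriv ?_
      rw [Nat.factorial_succ, ← add_assoc]
      push_cast
      field_simp
      simp
  have := mvt hd 0 t (2 * ‖F‖ * (|2 * t| ^ N / N.factorial)) (fun s hs => by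
    have h3 : |t - s| ≤ |t| := by simpa using abs_sub_right_of_mem_uIcc hs
    have h4 := abs_le_norm F (n + N + 1, s)
    rw [abs_div, abs_mul, abs_mul, abs_pow, abs_mul, abs_mul, Nat.abs_cast, mul_div_assoc]
    gcongr
    norm_num)
  simpa [Finset.sum_range_succ'] using this

theorem analytic (F : X) (n : ℕ) : AnalyticOnNhd ℝ (fun t => F.1 (n, t)) univ := by
  let g : ℂ → ℂ := fun z => ∑' k : ℕ, (F.1 (n + k, 0) : ℂ) * (2 * z) ^ k / k.factorial
  have hb : ∀ (k : ℕ) (R : ℝ) (z : ℂ), ‖z‖ ≤ R →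
      ‖(F.1 (n + k, 0) : ℂ) * (2 * z) ^ k / k.factorial‖ ≤ ‖F‖ * ((2 * R) ^ k / k.factorial) := by
    intro k R z hz
    have h4 := abs_le_norm F (n + k, 0)
    rw [norm_div, norm_mul, norm_pow, norm_mul, mul_div_assoc]
    simp only [Complex.norm_real, Real.norm_eq_abs, Complex.norm_ofNat, Complex.norm_natCast]
    gcongr
  have hg : Differentiable ℂ g := by
    intro z
    have := Complex.differentiableOn_tsum_of_summable_norm (U := Metric.ball 0 (‖z‖ + 1))
      (F := fun (k : ℕ) (z : ℂ) => (F.1 (n + k, 0) : ℂ) * (2 * z) ^ k / k.factorial)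
      ((Real.summable_pow_div_factorial (2 * (‖z‖ + 1))).mul_left ‖F‖)
      (fun k => by fun_prop) Metric.isOpen_ball
      (fun k w hw => hb k _ w (mem_ball_zero_iff.1 hw).le)
    exact this.differentiableAt (Metric.isOpen_ball.mem_nhds (by simp))
  have he : (fun t => F.1 (n, t)) = fun t : ℝ => (g t).re := by
    ext t
    have hs : Summable fun k : ℕ => (F.1 (n + k, 0) : ℂ) * (2 * (t : ℂ)) ^ k / k.factorial :=
      Summable.of_norm_bounded ((Real.summable_pow_div_factorial (2 * ‖(t : ℂ)‖)).mul_left ‖F‖)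
        fun k => hb k _ _ le_rfl
    have h1 := (Complex.hasSum_re hs.hasSum).tendsto_sum_nat.comp (tendsto_add_atTop_nat 1)
    refine tendsto_nhds_unique ?_ h1
    rw [tendsto_iff_norm_sub_tendsto_zero]
    have h2 := ((FloorSemiring.tendsto_pow_div_factorial_atTop |2 * t|).const_mul (2 * ‖F‖)).mul_const |t|
    simp only [mul_zero, zero_mul] at h2
    refine squeeze_zero (fun _ => norm_nonneg _) (fun N => ?_) h2
    have h3 := taylor F n t N
    rw [abs_sub_comm] at h3
    convert h3 using 1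
    simp only [Function.comp, Real.norm_eq_abs]
    congr 2
    refine Finset.sum_congr rfl fun k _ => ?_
    norm_cast
  rw [he]
  intro t _
  exact (hg.analyticAt t).re_ofReal

theorem attain (F : X) : ∃ p, |F.1 p| = ‖F‖ := by
  rcases (norm_nonneg F).eq_or_lt with h | h
  · exact ⟨(0, 0), le_antisymm (abs_le_norm F _) (h ▸ abs_nonneg _)⟩
  obtain ⟨N, hN⟩ := F.2.2 (‖F‖ / 2) (by linarith)
  obtain ⟨p, -, hp⟩ := ((finite_le_nat N).isCompact.prod (isCompact_Icc (a := -(N : ℝ)) (b := N))).exists_isMaxOn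
    ⟨(0, 0), by simp⟩ (F.1.continuous.abs.continuousOn)
  refine ⟨p, le_antisymm (abs_le_norm F _) ?_⟩
  by_contra hc
  push Not at hc
  have : ‖F‖ ≤ max (|F.1 p|) (‖F‖ / 2) := by
    refine norm_le' _ (by positivity) fun n t => ?_
    by_cases h' : N ≤ n ∨ (N : ℝ) ≤ |t|
    · exact (hN n t h').trans (le_max_right _ _)
    · push Not at h'
      exact le_trans (hp ⟨h'.1.le, abs_le.1 h'.2.le⟩) (le_max_left _ _)
  rcases le_max_iff.1 this with h' | h' <;> linarith

theorem no_plane : IsEmpty (EuclideanSpace ℝ (Fin 2) →ₗᵢ[ℝ] X) := by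
  refine ⟨fun L => ?_⟩
  let F := L (EuclideanSpace.single 0 1)
  let G := L (EuclideanSpace.single 1 1)
  have hn : ∀ a b : ℝ, ‖a • F + b • G‖ ^ 2 = a ^ 2 + b ^ 2 := by
    intro a b
    rw [← map_smul, ← map_smul, ← map_add, L.norm_map, EuclideanSpace.real_norm_sq_eq]
    simp
  have hle : ∀ p, F.1 p ^ 2 + G.1 p ^ 2 ≤ 1 := by
    intro p
    have h1 := abs_le_norm (F.1 p • F + G.1 p • G) p
    have h2 := pow_le_pow_left₀ (abs_nonneg _) h1 2
    rw [hn, sq_abs] at h2
    have h3 : (F.1 p • F + G.1 p • G).1 p = F.1 p ^ 2 + G.1 p ^ 2 := by simp; ring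
    rw [h3] at h2
    by_contra hc
    nlinarith
  have hinf : {p | F.1 p ^ 2 + G.1 p ^ 2 = 1}.Infinite := by
    refine Infinite.of_image (fun p => G.1 p / F.1 p)
      ((infinite_range_of_injective (Nat.cast_injective (R := ℝ))).mono ?_)
    rintro _ ⟨k, rfl⟩
    obtain ⟨p, hp⟩ := attain ((1 : ℝ) • F + (k : ℝ) • G)
    have h1 := hn 1 k
    rw [← hp, sq_abs] at h1
    have h3 : ((1 : ℝ) • F + (k : ℝ) • G).1 p = F.1 p + k * G.1 p := by simp
    rw [h3] at h1
    have h4 := hle p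
    have h5 : (G.1 p - k * F.1 p) ^ 2 = (1 + k ^ 2) * (F.1 p ^ 2 + G.1 p ^ 2 - 1) := by nlinarith
    have h6 : (G.1 p - k * F.1 p) ^ 2 = 0 := by
      nlinarith [sq_nonneg (G.1 p - k * F.1 p), sq_nonneg (k : ℝ)]
    have h7 : F.1 p ^ 2 + G.1 p ^ 2 = 1 := by
      rw [h6] at h5
      rcases mul_eq_zero.1 h5.symm with h | h
      · nlinarith [sq_nonneg (k : ℝ)]
      · linarith
    have h8 : G.1 p = k * F.1 p := by linarith [pow_eq_zero_iff two_ne_zero |>.1 h6]
    have h9 : F.1 p ≠ 0 := by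
      intro h; rw [h8, h] at h7; norm_num at h7
    exact ⟨p, h7, by simp only; rw [h8, mul_div_assoc, div_self h9, mul_one]⟩
  obtain ⟨N, hN⟩ := F.2.2 (1 / 2) (by norm_num)
  obtain ⟨M, hM⟩ := G.2.2 (1 / 2) (by norm_num)
  have hout : ∀ n t, (N + M ≤ n ∨ (N : ℝ) + M ≤ |t|) → F.1 (n, t) ^ 2 + G.1 (n, t) ^ 2 ≠ 1 := by
    intro n t h
    have a := hN n t (h.imp (by omega) (fun h => by linarith [(Nat.cast_nonneg M : (0 : ℝ) ≤ M)]))
    have b := hM n t (h.imp (by omega) (fun h => by linarith [(Nat.cast_nonneg N : (0 : ℝ) ≤ N)]))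
    rw [abs_le] at a b
    nlinarith
  obtain ⟨n, hn'⟩ : ∃ n, {t | F.1 (n, t) ^ 2 + G.1 (n, t) ^ 2 = 1}.Infinite := by
    by_contra hc
    push Not at hc
    refine hinf (((finite_lt_nat (N + M)).biUnion fun n _ => (hc n).image (Prod.mk n)).subset ?_)
    rintro ⟨n, t⟩ hp
    simp only [mem_iUnion]
    exact ⟨n, not_le.1 fun h => hout n t (Or.inl h) hp, t, hp, rfl⟩
  obtain ⟨t₀, -, ht₀⟩ := hn'.exists_accPt_of_subset_isCompact
    (isCompact_Icc (a := -((N : ℝ) + M)) (b := N + M))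
    (fun t ht => abs_le.1 (not_le.1 fun h => hout n t (Or.inr h) ht).le)
  rw [accPt_iff_frequently_nhdsNE] at ht₀
  have := AnalyticOnNhd.eq_of_frequently_eq (((analytic F n).pow 2).add ((analytic G n).pow 2))
    (analyticOnNhd_const (v := (1 : ℝ))) ht₀
  exact hout n (N + M) (Or.inr (le_abs_self _)) (congrFun this (N + M))

noncomputable def f (p : ℕ × ℝ) : ℝ :=
  (1 / 2) ^ p.1 * ∫ s in (0 : ℝ)..1, s ^ p.1 * Real.cos (p.2 * s + p.1 * (Real.pi / 2))

theorem f_der : Der f := by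
  intro n t
  have := (intervalIntegral.hasDerivAt_integral_of_dominated_loc_of_deriv_le (μ := MeasureTheory.volume)
    (a := 0) (b := 1) (x₀ := t) (s := univ) (bound := fun _ => (1 : ℝ))
    (F := fun (x s : ℝ) => s ^ n * Real.cos (x * s + n * (Real.pi / 2)))
    (F' := fun (x s : ℝ) => s ^ (n + 1) * Real.cos (x * s + (n + 1 : ℕ) * (Real.pi / 2)))
    univ_mem (Eventually.of_forall fun x => Continuous.aestronglyMeasurable (by fun_prop))
    (Continuous.intervalIntegrable (by fun_prop) _ _)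
    (Continuous.aestronglyMeasurable (by fun_prop))
    (Eventually.of_forall fun s hs x _ => by
      rw [uIoc_of_le zero_le_one] at hs
      rw [Real.norm_eq_abs, abs_mul, abs_pow, abs_of_pos hs.1]
      exact mul_le_one₀ (pow_le_one₀ hs.1.le hs.2) (abs_nonneg _) (Real.abs_cos_le_one _))
    (by simp)
    (Eventually.of_forall fun s _ x _ => by
      have h1 : HasDerivAt (fun x : ℝ => x * s + n * (Real.pi / 2)) s x := by
        simpa using ((hasDerivAt_id x).mul_const s).add_const (n * (Real.pi / 2))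
      refine (h1.cos.const_mul (s ^ n)).congr_deriv ?_
      push_cast
      rw [add_mul, one_mul, ← add_assoc, Real.cos_add_pi_div_two]
      ring)).2
  refine (this.const_mul ((1 / 2) ^ n)).congr_deriv ?_
  simp only [f]
  ring

theorem f_bd (n : ℕ) (t : ℝ) : |f (n, t)| ≤ (1 / 2) ^ n := by
  simp only [f]
  rw [abs_mul, abs_of_pos (by positivity)]
  refine mul_le_of_le_one_right (by positivity) ?_
  have := intervalIntegral.norm_integral_le_of_norm_le_const (a := 0) (b := 1) (C := 1)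
    (f := fun s : ℝ => s ^ n * Real.cos (t * s + n * (Real.pi / 2))) (fun s hs => by
      rw [uIoc_of_le zero_le_one] at hs
      rw [Real.norm_eq_abs, abs_mul, abs_pow, abs_of_pos hs.1]
      exact mul_le_one₀ (pow_le_one₀ hs.1.le hs.2) (abs_nonneg _) (Real.abs_cos_le_one _))
  simpa using this

theorem f_bd2 (n : ℕ) (t : ℝ) : |t| * |f (n, t)| ≤ 2 := by
  have h1 := intervalIntegral.integral_mul_deriv_eq_deriv_mul (a := 0) (b := 1)
    (u := fun s : ℝ => s ^ n) (u' := fun s => n * s ^ (n - 1))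
    (v := fun s => Real.sin (t * s + n * (Real.pi / 2)))
    (v' := fun s => t * Real.cos (t * s + n * (Real.pi / 2)))
    (fun s _ => by simpa using hasDerivAt_pow n s)
    (fun s _ => by
      have h1 : HasDerivAt (fun s : ℝ => t * s + n * (Real.pi / 2)) t s := by
        simpa using ((hasDerivAt_id s).const_mul t).add_const (n * (Real.pi / 2))
      simpa [mul_comm] using h1.sin)
    (Continuous.intervalIntegrable (by fun_prop) _ _) (Continuous.intervalIntegrable (by fun_prop) _ _)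
  have h2 := intervalIntegral.norm_integral_le_of_norm_le_const (a := 0) (b := 1) (C := n)
    (f := fun s : ℝ => n * s ^ (n - 1) * Real.sin (t * s + n * (Real.pi / 2))) (fun s hs => by
      rw [uIoc_of_le zero_le_one] at hs
      rw [Real.norm_eq_abs, abs_mul, abs_mul, abs_pow, abs_of_pos hs.1, Nat.abs_cast, mul_assoc]
      exact mul_le_of_le_one_right (Nat.cast_nonneg _)
        (mul_le_one₀ (pow_le_one₀ hs.1.le hs.2) (abs_nonneg _) (Real.abs_sin_le_one _)))
  have h3 : t * f (n, t) = (1 / 2) ^ n *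
      ∫ s in (0 : ℝ)..1, s ^ n * (t * Real.cos (t * s + n * (Real.pi / 2))) := by
    simp only [f]
    rw [mul_left_comm, ← intervalIntegral.integral_const_mul]
    congr 2
    ext s; ring
  rw [← abs_mul, h3, h1, abs_mul, abs_of_pos (by positivity)]
  have h4 : (n : ℝ) + 2 ≤ 2 * 2 ^ n := by
    have : n + 1 ≤ 2 ^ n := Nat.lt_two_pow_self
    have : (n : ℝ) + 1 ≤ 2 ^ n := by exact_mod_cast this
    linarith [(Nat.cast_nonneg n : (0 : ℝ) ≤ n)]
  have h5 := Real.abs_sin_le_one (t * 1 + n * (Real.pi / 2))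
  have h6 := Real.abs_sin_le_one (t * 0 + n * (Real.pi / 2))
  have h7 : |(0 : ℝ) ^ n * Real.sin (t * 0 + n * (Real.pi / 2))| ≤ 1 := by
    rw [abs_mul, abs_pow]
    exact mul_le_one₀ (pow_le_one₀ (abs_nonneg _) (by simp)) (abs_nonneg _) h6
  rw [one_div, inv_pow, inv_mul_le_iff₀ (by positivity), one_pow, one_mul]
  rw [Real.norm_eq_abs] at h2
  norm_num at h2
  rw [abs_le] at *
  constructor <;> linarith [h2.1, h2.2, h5.1, h5.2, h7.1, h7.2]

noncomputable def fX : X := ⟨BoundedContinuousFunction.ofNormedAddCommGroup f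
    (continuous_prod_of_discrete_left.2 fun n =>
      continuous_iff_continuousAt.2 fun t => (f_der n t).continuousAt) 1
    (fun p => (f_bd p.1 p.2).trans (pow_le_one₀ (by norm_num) (by norm_num))),
  f_der, fun ε hε => by
    obtain ⟨N, hN⟩ := exists_pow_lt_of_lt_one hε (show (1 / 2 : ℝ) < 1 by norm_num)
    obtain ⟨M, hM⟩ := exists_nat_gt (2 / ε)
    refine ⟨N + M, fun n t h => ?_⟩
    show |f (n, t)| ≤ ε
    rcases h with h | h
    · exact (f_bd n t).trans ((pow_le_pow_of_le_one (by norm_num) (by norm_num) (by omega)).trans hN.le)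
    · have h1 := f_bd2 n t
      push_cast at h
      rw [div_lt_iff₀ hε] at hM
      by_contra hc
      push Not at hc
      nlinarith [(Nat.cast_nonneg N : (0 : ℝ) ≤ N), (Nat.cast_nonneg M : (0 : ℝ) ≤ M)]⟩

theorem T_ne : T ≠ 0 := by
  intro h
  have h1 : (T (T fX)).1 (0, 0) = 0 := by rw [h]; rfl
  rw [T_apply, T_apply] at h1
  have h2 : fX.1 (0 + 1 + 1, 0) = f (2, 0) := rfl
  rw [h2] at h1
  simp only [f, zero_mul, zero_add] at h1
  rw [show ((2 : ℕ) : ℝ) * (Real.pi / 2) = Real.pi by push_cast; ring, Real.cos_pi] at h1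
  norm_num at h1

def Y : Type := X

noncomputable instance : NormedAddCommGroup Y := inferInstanceAs (NormedAddCommGroup X)
noncomputable instance : NormedSpace ℝ Y := inferInstanceAs (NormedSpace ℝ X)

noncomputable def TY : Y →L[ℝ] Y := T

theorem result : ∃ (X : Type) (_ : NormedAddCommGroup X) (_ : NormedSpace ℝ X),
    CompleteSpace X ∧ ∃ T : X →L[ℝ] X, T ≠ 0 ∧ numRange T = {0} ∧
      IsEmpty (EuclideanSpace ℝ (Fin 2) →ₗᵢ[ℝ] X) := by
  have h0 : TY ≠ 0 := T_ne
  have : Nontrivial Y := by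
    by_contra hc
    rw [not_nontrivial_iff_subsingleton] at hc
    exact h0 (Subsingleton.elim _ _)
  have h1 : CompleteSpace Y := inferInstanceAs (CompleteSpace X)
  have h2 : IsEmpty (EuclideanSpace ℝ (Fin 2) →ₗᵢ[ℝ] Y) := no_plane
  have h3 : ∀ (F : Y) (t : ℝ), ‖F + t • TY F‖ ≤ ‖F‖ + 4 * ‖F‖ * t ^ 2 := fun F t => by
    have := near F t
    exact this
  exact ⟨Y, inferInstance, inferInstance, h1, TY, h0, range_T TY h3, h2⟩

end Pool.Agent.Results.MP_981724_an.NoPlane
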